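import Pool.Agent.WAX.Stmts

/-!
# Squad WAX, row LXA: small inertial quotients
-/

set_option autoImplicit false

noncomputable section

namespace Pool.Agent.PP.TX.H69

open Pool.Agent.Helper51_AWC Pool.Agent.Helper79_WRA Pool.Agent.PP Pool.Agent.PP.KF
open Pool.Agent.PP.K9 Pool.Agent.PP.K9.H97 Pool.Agent.PP.H75 Pool.Agent.PP.T3 Pool.Agent.PP.T2
open Pool.Agent.PP.T5 Pool.Agent.PP.TB Pool.Agent.PP.TV Pool.Agent.PP.TX
open Pool.Agent.PP.T8 (Rv Fq Fr Ei Hk Rk Fd In)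

attribute [local instance] Ideal.Quotient.field

/-- Row LXA. -/
theorem lxa (ln0 : Ln0Stmt) (bnk : BnkStmt) : LxaStmt := by
  intro ℓ hℓ M _ hM G _ _ e V γ hL hZ hix r hr
  by_cases hV : V = ⊥
  · exact (ln0 ℓ M hM G e V γ hL hV).trans (Nat.one_le_pow _ _ hℓ.out.pos)
  obtain ⟨b, hb⟩ : ∃ b, Monoid.exponent V = ℓ ^ b := by
    obtain ⟨n, hn⟩ := IsPGroup.iff_card.1 hL.tp.pg
    have h1 : Monoid.exponent V ∣ ℓ ^ n := by
      rw [← hn]
      exact Group.exponent_dvd_nat_card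
    obtain ⟨b, -, hb⟩ := (Nat.dvd_prime_pow hℓ.out).1 h1
    exact ⟨b, hb⟩
  have hb0 : 0 < b := by
    rcases Nat.eq_zero_or_pos b with h | h
    · exfalso
      rw [h, pow_zero, Monoid.exp_eq_one_iff] at hb
      haveI := hb; exact hV (Subgroup.eq_bot_of_subsingleton V)
    · exact h
  by_cases h2 : ℓ = 2
  · exfalso
    apply hV
    have h3 : ix V γ = 1 := by
      have h4 : ix V γ ≠ 0 := by
        unfold ix
        exact Subgroup.index_ne_zero_of_finite
      omega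
    have h5 : Tg V γ ≤ Subgroup.centralizer (V : Set G) := Subgroup.relIndex_eq_one.1 h3
    rw [eq_bot_iff, ← hZ]
    intro v hv
    refine Subgroup.mem_inf.2 ⟨hv, ?_⟩
    rw [Subgroup.mem_centralizer_iff]
    intro t ht
    exact (Subgroup.mem_centralizer_iff.1 (h5 ht) v hv).symm
  · have h3 := bnk ℓ M hM h2 G e V γ hL b 1 Nat.one_pos hb0 hb (Or.inr (Or.inl hix))
      (Or.inr (Or.inl hix))
    rw [Nat.sub_self, pow_zero, mul_one, pow_one] at h3
    have h4 : 0 < Nat.card (Uw ℓ V) := Nat.card_pos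
    exact Nat.le_of_mul_le_mul_right (h3.trans hr) h4

end Pool.Agent.PP.TX.H69
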